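import Pool.Agent.H68.ZS.TA
import Pool.Agent.H37.ZF.LOS

/-!
Row LOS of page ZS.
-/

set_option autoImplicit false

namespace Pool.Agent.H37.ZS

open Pool.Agent.H27.ZF Pool.Agent.H68.ZS

theorem pf_LOS : T_LOS := by
  intro m rho hm hrho
  obtain ⟨J0, h1, h2⟩ := Pool.Agent.H37.ZF.los m rho hm hrho
  exact ⟨J0, h1, h2⟩

end Pool.Agent.H37.ZS
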